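import Pool.Agent.Run7.h35.NEG.Iface2

set_option autoImplicit false

namespace Run7.h114.NEG.PIG

open Finset Module Classical Run7.h35.NEG

/-- total mass of sparse contents -/
theorem mass_le {T : Tower} {J : ℕ} {c : ℕ → Fin (2 ^ T.a) → Fin J → ℝ} {B : ℝ}
    (hc : T.Sparse c B) (s : ℕ) :
    ∑ ν, ∑ s' ∈ range (s + 1), ∑ j, c s' ν j ^ 2 ≤ (s + 1) * (J * B ^ 2) := by
  rw [sum_comm]
  calc ∑ s' ∈ range (s + 1), ∑ ν, ∑ j, c s' ν j ^ 2
      = ∑ s' ∈ range (s + 1), ∑ j, ∑ ν, c s' ν j ^ 2 := by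
        refine sum_congr rfl fun s' _ => sum_comm
    _ ≤ ∑ s' ∈ range (s + 1), ∑ j : Fin J, B ^ 2 := by
        refine sum_le_sum fun s' _ => sum_le_sum fun j _ => ?_
        exact (hc s' j).2.2
    _ = (s + 1) * (J * B ^ 2) := by
        simp

theorem main : S_PIG := by
  intro top B δ hB hδ
  obtain ⟨W, hW⟩ := exists_nat_ge (((top : ℝ) + 1) * B ^ 2 / δ)
  refine ⟨10 ^ (3 * (W + 1) + 1), ?_, ?_⟩
  · calc 10 = 10 ^ 1 := by norm_num
      _ ≤ 10 ^ (3 * (W + 1) + 1) := Nat.pow_le_pow_right (by norm_num) (by omega)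
  intro H₂ ε C₀ g Γ T hg htop hT J c hJ hc
  have key : ∀ s, ∃ Lo r Hi : ℕ, s < T.top → T.n s ^ 10 ≤ Lo ∧ Lo ^ 10 ≤ r ∧ r ^ 10 ≤ Hi ∧
      Hi ^ 10 ≤ T.k (s + 1) ∧
      ∑ ν ∈ univ.filter (fun ν => J ≤ Hi * occ c s ν ∧ Lo * occ c s ν < J),
        ∑ s' ∈ range (s + 1), ∑ j, c s' ν j ^ 2 ≤ δ * J := by
    intro s
    by_cases hs : s < T.top
    · set n := T.n s with hn
      have hn1 : 1 ≤ n := by
        rw [hn, hT.n_eq s hs]
        exact Nat.one_le_pow _ _ (lt_of_lt_of_le Nat.zero_lt_one (hT.one_le_a.trans (hT.k_ge s)))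
      set Bl : ℕ → Finset (Fin (2 ^ T.a)) := fun l => univ.filter (fun ν =>
        J ≤ n ^ (10 ^ (3 * l + 3)) * occ c s ν ∧ n ^ (10 ^ (3 * l + 1)) * occ c s ν < J) with hBl
      set F : Fin (2 ^ T.a) → ℝ := fun ν => ∑ s' ∈ range (s + 1), ∑ j, c s' ν j ^ 2 with hF
      have hF0 : ∀ ν, 0 ≤ F ν := fun ν => by rw [hF]; positivity
      have hdis : ((range (W + 1) : Finset ℕ) : Set ℕ).PairwiseDisjoint Bl := by
        have h : ∀ l l', l < l' → Disjoint (Bl l) (Bl l') := by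
          intro l l' hl
          rw [Finset.disjoint_left]
          intro ν h1 h2
          simp only [hBl, mem_filter, mem_univ, true_and] at h1 h2
          have h3 : n ^ (10 ^ (3 * l + 3)) ≤ n ^ (10 ^ (3 * l' + 1)) :=
            Nat.pow_le_pow_right hn1 (Nat.pow_le_pow_right (by norm_num) (by omega))
          have h4 := Nat.mul_le_mul_right (occ c s ν) h3
          omega
        intro l _ l' _ hll
        rcases lt_or_gt_of_ne hll with h1 | h1
        · exact h l l' h1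
        · exact (h l' l h1).symm
      have hsum : ∑ l ∈ range (W + 1), ∑ ν ∈ Bl l, F ν ≤ ∑ l ∈ range (W + 1), δ * (J : ℝ) := by
        rw [← Finset.sum_biUnion hdis]
        refine (sum_le_sum_of_subset_of_nonneg (subset_univ _) fun ν _ _ => hF0 ν).trans ?_
        refine (mass_le hc s).trans ?_
        rw [sum_const, card_range, nsmul_eq_mul]
        have h1 : ((top : ℝ) + 1) * B ^ 2 ≤ W * δ := by
          rw [div_le_iff₀ hδ] at hW; exact hW
        have h2 : (s : ℝ) + 1 ≤ top + 1 := by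
          have : (s : ℝ) ≤ top := by
            rw [← htop]; exact_mod_cast hs.le
          linarith
        have hJ0 : (0 : ℝ) ≤ J := Nat.cast_nonneg _
        calc ((s : ℝ) + 1) * (J * B ^ 2) ≤ ((top : ℝ) + 1) * (J * B ^ 2) := by gcongr
          _ = (((top : ℝ) + 1) * B ^ 2) * J := by ring
          _ ≤ (W * δ) * J := by gcongr
          _ ≤ ((W + 1 : ℕ) : ℝ) * (δ * J) := by
            push_cast
            nlinarith [mul_nonneg hδ.le hJ0]
      obtain ⟨l, hl, hle⟩ := exists_le_of_sum_le (nonempty_range_iff.2 (by omega)) hsum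
      rw [mem_range] at hl
      refine ⟨n ^ (10 ^ (3 * l + 1)), n ^ (10 ^ (3 * l + 2)), n ^ (10 ^ (3 * l + 3)), fun _ => ?_⟩
      have hpow : ∀ m, (n ^ (10 ^ m)) ^ 10 = n ^ (10 ^ (m + 1)) := by
        intro m; rw [← pow_mul, ← pow_succ]
      refine ⟨?_, ?_, ?_, ?_, hle⟩
      · exact Nat.pow_le_pow_right hn1 (by
          calc 10 = 10 ^ 1 := by norm_num
            _ ≤ 10 ^ (3 * l + 1) := Nat.pow_le_pow_right (by norm_num) (by omega))
      · rw [hpow]
      · rw [hpow]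
      · rw [hpow]
        refine le_trans (Nat.pow_le_pow_right hn1 ?_) (hT.gap s hs)
        refine le_trans (Nat.pow_le_pow_right (by norm_num) ?_) hg
        omega
    · exact ⟨0, 0, 0, fun h => absurd h hs⟩
  choose Lo r Hi h using key
  exact ⟨Lo, r, Hi, fun s hs => (h s hs).1, fun s hs => (h s hs).2.1, fun s hs => (h s hs).2.2.1,
    fun s hs => (h s hs).2.2.2.1, fun s hs => (h s hs).2.2.2.2⟩

end Run7.h114.NEG.PIG


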