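import Pool.Agent.Run7.h35.NEG.Iface2

set_option autoImplicit false

namespace Run7.h114.NEG.SAMPLE

open Finset Module Classical Run7.h35.NEG

/-! ### counting maps -/

/-- one coordinate of a random map -/
theorem one {κ : Type} [Fintype κ] [DecidableEq κ] (J : ℕ) (k : κ) (G : Fin J → ℝ) :
    (J : ℝ) * ∑ τ : κ → Fin J, G (τ k) = (J : ℝ) ^ (Fintype.card κ) * ∑ b, G b := by
  have h1 : ∑ τ : κ → Fin J, G (τ k) = ∑ p : Fin J × ({j // j ≠ k} → Fin J), G p.1 :=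
    Fintype.sum_equiv (Equiv.funSplitAt k (Fin J)) _ _ fun τ => by simp
  have h2 : ∑ p : Fin J × ({j // j ≠ k} → Fin J), G p.1 =
      (J : ℝ) ^ (Fintype.card κ - 1) * ∑ b, G b := by
    rw [Fintype.sum_prod_type, mul_sum]
    refine sum_congr rfl fun b _ => ?_
    simp
  have h3 : 1 ≤ Fintype.card κ := Fintype.card_pos_iff.2 ⟨k⟩
  have h4 : (J : ℝ) * (J : ℝ) ^ (Fintype.card κ - 1) = (J : ℝ) ^ (Fintype.card κ) := by
    rw [← pow_succ']
    congr 1
    omega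
  rw [h1, h2, ← mul_assoc, h4]

/-- two coordinates of a random map -/
theorem two {κ : Type} [Fintype κ] [DecidableEq κ] (J : ℕ) (k k' : κ) (hk : k ≠ k')
    (G : Fin J → Fin J → ℝ) :
    (J : ℝ) ^ 2 * ∑ τ : κ → Fin J, G (τ k) (τ k') =
      (J : ℝ) ^ (Fintype.card κ) * ∑ a, ∑ b, G a b := by
  have h1 : ∑ τ : κ → Fin J, G (τ k) (τ k') =
      ∑ p : Fin J × ({j // j ≠ k} → Fin J), G p.1 (p.2 ⟨k', hk.symm⟩) :=
    Fintype.sum_equiv (Equiv.funSplitAt k (Fin J)) _ _ fun τ => by simp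
  have h3 : 1 ≤ Fintype.card κ := Fintype.card_pos_iff.2 ⟨k⟩
  have h5 : Fintype.card {j // j ≠ k} = Fintype.card κ - 1 := by simp
  have h2 : (J : ℝ) * ∑ p : Fin J × ({j // j ≠ k} → Fin J), G p.1 (p.2 ⟨k', hk.symm⟩) =
      (J : ℝ) ^ (Fintype.card κ - 1) * ∑ a, ∑ b, G a b := by
    rw [Fintype.sum_prod_type, mul_sum, mul_sum]
    refine sum_congr rfl fun a _ => ?_
    have := one J (⟨k', hk.symm⟩ : {j // j ≠ k}) (G a)
    rw [h5] at this
    exact this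
  have h4 : (J : ℝ) * (J : ℝ) ^ (Fintype.card κ - 1) = (J : ℝ) ^ (Fintype.card κ) := by
    rw [← pow_succ']
    congr 1
    omega
  rw [h1, sq, mul_assoc, h2, ← mul_assoc, h4]

/-- the sum over the coordinates -/
theorem allc (J r : ℕ) (hJ : 1 ≤ J) (G : Fin J → ℝ) :
    ∑ τ : Fin r → Fin J, ∑ l, G (τ l) = (r / J * ∑ b, G b) * (J : ℝ) ^ r := by
  have hJ0 : (J : ℝ) ≠ 0 := by
    have : (1 : ℝ) ≤ J := by exact_mod_cast hJ
    positivity
  rw [sum_comm]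
  have h : ∀ l : Fin r, ∑ τ : Fin r → Fin J, G (τ l) = ((J : ℝ) ^ r * ∑ b, G b) / J := by
    intro l
    have := one J l G
    rw [Fintype.card_fin] at this
    rw [eq_div_iff hJ0, mul_comm, this]
  simp only [h, sum_const, card_univ, Fintype.card_fin, nsmul_eq_mul]
  field_simp

theorem sample1 : ∀ (J r : ℕ) (f g : Fin J → ℝ) (Φ : (Fin r → Fin J) → ℝ) (B β θ A : ℝ)
    (bad : Fin J → Fin J → Prop), 1 ≤ J → 1 ≤ r → (∀ j, 0 ≤ f j) → (∀ j, f j ≤ B) →
    (∀ j, 0 ≤ g j) → (∀ τ, 0 ≤ Φ τ) → 0 ≤ B → 0 ≤ θ →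
    (((univ : Finset (Fin J × Fin J)).filter (fun p => bad p.1 p.2)).card : ℝ) ≤ β * J ^ 2 →
    (∑ τ, Φ τ ≤ A * (J : ℝ) ^ r) →
    (∀ τ : Fin r → Fin J, (∀ l l', l ≠ l' → ¬ bad (τ l) (τ l')) →
      ∑ l, f (τ l) ≤ ∑ l, g (τ l) + Φ τ + θ * r) →
    (∑ j, f j) / J ≤ (∑ j, g j) / J + A / r + θ + B * r ^ 2 * β := by
  intro J r f g Φ B β θ A bad hJ hr hf hfB hg hΦ hB hθ hbad hA hav
  have hJ1 : (1 : ℝ) ≤ J := by exact_mod_cast hJ
  have hr1 : (1 : ℝ) ≤ r := by exact_mod_cast hr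
  have hJ0 : (0 : ℝ) < J := by linarith
  have hr0 : (0 : ℝ) < r := by linarith
  -- number of bad maps
  set N : (Fin r → Fin J) → ℝ := fun τ =>
    ∑ l, ∑ l', if l ≠ l' ∧ bad (τ l) (τ l') then (1 : ℝ) else 0 with hN
  have hN0 : ∀ τ, 0 ≤ N τ := fun τ => by
    rw [hN]
    refine sum_nonneg fun l _ => sum_nonneg fun l' _ => ?_
    split_ifs <;> norm_num
  have hNb : ∀ τ, (¬ ∀ l l', l ≠ l' → ¬ bad (τ l) (τ l')) → 1 ≤ N τ := by
    intro τ h
    push Not at h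
    obtain ⟨l, l', h1, h2⟩ := h
    have h3 : ∀ l l', (0 : ℝ) ≤ if l ≠ l' ∧ bad (τ l) (τ l') then (1 : ℝ) else 0 := by
      intro l l'; split_ifs <;> norm_num
    calc (1 : ℝ) = if l ≠ l' ∧ bad (τ l) (τ l') then (1 : ℝ) else 0 := by rw [if_pos ⟨h1, h2⟩]
      _ ≤ ∑ l', if l ≠ l' ∧ bad (τ l) (τ l') then (1 : ℝ) else 0 :=
        single_le_sum (f := fun l' => if l ≠ l' ∧ bad (τ l) (τ l') then (1 : ℝ) else 0)
          (fun l' _ => h3 l l') (mem_univ l')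
      _ ≤ N τ := single_le_sum (f := fun l => ∑ l', if l ≠ l' ∧ bad (τ l) (τ l') then (1 : ℝ)
          else 0) (fun l _ => sum_nonneg fun l' _ => h3 l l') (mem_univ l)
  have hpair : ∀ l l' : Fin r, ∑ τ : Fin r → Fin J,
      (if l ≠ l' ∧ bad (τ l) (τ l') then (1 : ℝ) else 0) ≤ β * (J : ℝ) ^ r := by
    intro l l'
    have hβ0 : 0 ≤ β * (J : ℝ) ^ 2 := le_trans (Nat.cast_nonneg _) hbad
    have hβ : 0 ≤ β := by
      by_contra h
      push Not at h
      nlinarith [mul_pos_of_neg_of_neg h (neg_lt_zero.2 (pow_pos hJ0 2))]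
    by_cases h : l = l'
    · simp only [h, ne_eq, not_true_eq_false, false_and, if_false, sum_const_zero]
      positivity
    · have h1 := two J l l' h (fun a b => if bad a b then (1 : ℝ) else 0)
      have h2 : ∑ a, ∑ b, (if bad a b then (1 : ℝ) else 0) =
          (((univ : Finset (Fin J × Fin J)).filter (fun p => bad p.1 p.2)).card : ℝ) := by
        rw [← Fintype.sum_prod_type', card_filter]
        push_cast
        rfl
      rw [h2, Fintype.card_fin] at h1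
      have h3 : (J : ℝ) ^ 2 * ∑ τ : Fin r → Fin J, (if bad (τ l) (τ l') then (1 : ℝ) else 0) ≤
          (J : ℝ) ^ 2 * (β * (J : ℝ) ^ r) := by
        rw [h1]
        calc (J : ℝ) ^ r * _ ≤ (J : ℝ) ^ r * (β * (J : ℝ) ^ 2) := by gcongr
          _ = (J : ℝ) ^ 2 * (β * (J : ℝ) ^ r) := by ring
      have h4 := le_of_mul_le_mul_left h3 (pow_pos hJ0 2)
      simpa [h] using h4
  have hNs : ∑ τ, N τ ≤ (r : ℝ) ^ 2 * (β * (J : ℝ) ^ r) := by
    rw [hN]
    rw [sum_comm]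
    calc ∑ l : Fin r, ∑ τ : Fin r → Fin J,
          ∑ l', (if l ≠ l' ∧ bad (τ l) (τ l') then (1 : ℝ) else 0)
        = ∑ l : Fin r, ∑ l' : Fin r, ∑ τ : Fin r → Fin J,
          (if l ≠ l' ∧ bad (τ l) (τ l') then (1 : ℝ) else 0) := by
          refine sum_congr rfl fun l _ => sum_comm
      _ ≤ ∑ l : Fin r, ∑ l' : Fin r, β * (J : ℝ) ^ r :=
          sum_le_sum fun l _ => sum_le_sum fun l' _ => hpair l l'
      _ = (r : ℝ) ^ 2 * (β * (J : ℝ) ^ r) := by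
          simp only [sum_const, card_univ, Fintype.card_fin, nsmul_eq_mul]
          ring
  have hτ : ∀ τ : Fin r → Fin J, ∑ l, f (τ l) ≤
      ∑ l, g (τ l) + Φ τ + θ * r + N τ * (r * B) := by
    intro τ
    by_cases h : ∀ l l', l ≠ l' → ¬ bad (τ l) (τ l')
    · have := hav τ h
      have h2 : 0 ≤ N τ * (r * B) := mul_nonneg (hN0 τ) (by positivity)
      linarith
    · have h1 := hNb τ h
      have h2 : ∑ l, f (τ l) ≤ r * B := by
        calc ∑ l, f (τ l) ≤ ∑ l : Fin r, B := sum_le_sum fun l _ => hfB _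
          _ = r * B := by simp
      have h3 : r * B ≤ N τ * (r * B) := by
        have : 0 ≤ r * B := by positivity
        nlinarith
      have h4 : 0 ≤ ∑ l, g (τ l) := sum_nonneg fun l _ => hg _
      have h5 := hΦ τ
      have h6 : 0 ≤ θ * r := by positivity
      linarith
  have hsum := sum_le_sum (s := univ) fun τ (_ : τ ∈ univ) => hτ τ
  rw [allc J r hJ f] at hsum
  simp only [sum_add_distrib, allc J r hJ g, ← sum_mul] at hsum
  have hc : (∑ _τ : Fin r → Fin J, θ) * (r : ℝ) = (θ * r) * (J : ℝ) ^ r := by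
    simp [sum_const, card_univ]
    ring
  rw [hc] at hsum
  have hNs' : (∑ τ, N τ) * (r * B) ≤ ((r : ℝ) ^ 2 * (β * (J : ℝ) ^ r)) * (r * B) :=
    mul_le_mul_of_nonneg_right hNs (by positivity)
  have hfin : (r / J * ∑ b, f b) * (J : ℝ) ^ r ≤
      ((r / J * ∑ b, g b) + A + θ * r + (r : ℝ) ^ 2 * β * (r * B)) * (J : ℝ) ^ r := by
    calc _ ≤ _ := hsum
      _ ≤ (r / J * ∑ b, g b) * (J : ℝ) ^ r + A * (J : ℝ) ^ r + (θ * r) * (J : ℝ) ^ r +
          ((r : ℝ) ^ 2 * (β * (J : ℝ) ^ r)) * (r * B) := by linarith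
      _ = _ := by ring
  have hfin2 := le_of_mul_le_mul_right hfin (pow_pos hJ0 r)
  have hfin3 : (∑ j, f j) / J * r ≤
      ((∑ j, g j) / J + A / r + θ + B * r ^ 2 * β) * r := by
    have e1 : (∑ j, f j) / J * r = r / J * ∑ b, f b := by ring
    have e2 : ((∑ j, g j) / J + A / r + θ + B * r ^ 2 * β) * r =
        r / J * ∑ b, g b + A + θ * r + (r : ℝ) ^ 2 * β * (r * B) := by
      field_simp
    rw [e1, e2]
    exact hfin2
  exact le_of_mul_le_mul_right hfin3 hr0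

theorem sample2 : ∀ (T : Tower) (J r : ℕ) (y : (s : ℕ) → Fin (T.n s) → Fin J → ℝ)
    (c : ℕ → Fin (2 ^ T.a) → Fin J → ℝ), 1 ≤ J →
    ∑ τ : Fin r → Fin J, T.mc (fun s b l => y s b (τ l)) (fun s ν l => c s ν (τ l)) ≤
      (r / J * T.mc y c) * (J : ℝ) ^ r := by
  intro T J r y c hJ
  have hJ1 : (1 : ℝ) ≤ J := by exact_mod_cast hJ
  have hJ0 : (0 : ℝ) < J := by linarith
  have hhs : ∀ {ι : Type} [Fintype ι] (M : ι → Fin J → ℝ),
      ∑ τ : Fin r → Fin J, hs (fun b l => M b (τ l)) = (r / J * hs M) * (J : ℝ) ^ r := by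
    intro ι _ M
    unfold hs
    rw [sum_comm]
    calc ∑ b, ∑ τ : Fin r → Fin J, ∑ l, M b (τ l) ^ 2
        = ∑ b, (r / J * ∑ j, M b j ^ 2) * (J : ℝ) ^ r := by
          refine sum_congr rfl fun b _ => allc J r hJ (fun j => M b j ^ 2)
      _ = _ := by rw [← sum_mul, ← mul_sum]
  have hrho : ∀ {ι : Type} [Fintype ι] (M : ι → Fin J → ℝ),
      ∑ τ : Fin r → Fin J, rho (fun b l => M b (τ l)) ^ 2 ≤
        (r / J * rho M ^ 2) * (J : ℝ) ^ r := by
    intro ι _ M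
    have h1 := sum_l1_sq_le (fun (b : ι) (τ : Fin r → Fin J) => Real.sqrt (∑ l, M b (τ l) ^ 2))
    have h2 : ∀ τ : Fin r → Fin J, ∑ b, |Real.sqrt (∑ l, M b (τ l) ^ 2)| =
        rho (fun b l => M b (τ l)) := by
      intro τ
      unfold rho
      exact sum_congr rfl fun b _ => abs_of_nonneg (Real.sqrt_nonneg _)
    simp only [h2] at h1
    refine h1.trans (le_of_eq ?_)
    have h3 : rho (fun (b : ι) (τ : Fin r → Fin J) => Real.sqrt (∑ l, M b (τ l) ^ 2)) =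
        Real.sqrt (r / J * (J : ℝ) ^ r) * rho M := by
      unfold rho
      rw [mul_sum]
      refine sum_congr rfl fun b _ => ?_
      rw [← Real.sqrt_mul (by positivity)]
      congr 1
      have h4 := allc J r hJ (fun j => M b j ^ 2)
      have h5 : ∀ τ : Fin r → Fin J, Real.sqrt (∑ l, M b (τ l) ^ 2) ^ 2 = ∑ l, M b (τ l) ^ 2 :=
        fun τ => Real.sq_sqrt (by positivity)
      simp only [h5, h4]
      ring
    rw [h3, mul_pow, Real.sq_sqrt (by positivity)]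
    ring
  simp only [mc_eq]
  rw [sum_comm, mul_sum, sum_mul]
  refine sum_le_sum fun s _ => ?_
  rw [sum_add_distrib, sum_add_distrib, hhs, hhs, ← sum_div]
  have h6 : (∑ τ : Fin r → Fin J, rho (fun ν l => c s ν (τ l)) ^ 2) / (T.k s : ℝ) ≤
      ((r / J * rho (c s) ^ 2) * (J : ℝ) ^ r) / (T.k s : ℝ) :=
    div_le_div_of_nonneg_right (hrho (c s)) (Nat.cast_nonneg _)
  calc _ ≤ (r / J * hs (y s)) * (J : ℝ) ^ r + (r / J * hs (c s)) * (J : ℝ) ^ r +
      ((r / J * rho (c s) ^ 2) * (J : ℝ) ^ r) / (T.k s : ℝ) := by linarith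
    _ = _ := by ring

theorem main : S_SAMPLE := ⟨sample1, sample2⟩

end Run7.h114.NEG.SAMPLE


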